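import Pool.Agent.Helper10.TR.Defs2
import Pool.Agent.Helper11.TR.RU
import Pool.Agent.Helper26.OB.M
import Pool.Agent.Helper26.OB.MC

/-!
# V4: the Frobenius of an embedding is a power of the automorphism
-/

set_option autoImplicit false

namespace Pool.Agent.Helper10.V4

open Polynomial Pool.Agent.Helper61.TH Pool.Agent.Helper87.FK Pool.Agent.Helper26.OB Pool.Agent.Helper10.TR

noncomputable section

/-- reduction of a polynomial whose coefficients have residues fixed by Frobenius -/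
theorem red_poly {p : ℕ} [Fact p.Prime] (τ : ℂ →+* PadicAlgCl p) (Q : ℂ[X]) (hQ : ∀ n, ‖τ (Q.coeff n)‖ ≤ 1)
    (hfix : ∀ n, rd τ (Q.coeff n) ^ p = rd τ (Q.coeff n)) : ∃ Qb : (kk p)[X],
      (∀ y, ‖τ y‖ ≤ 1 → ‖τ (Q.eval y)‖ ≤ 1 ∧ rd τ (Q.eval y) = Qb.eval (rd τ y)) ∧
      ∀ a k, (Qb.eval a) ^ p ^ k = Qb.eval (a ^ p ^ k) := by
  have hl : Q ∈ Polynomial.lifts (Ot τ).subtype := by
    rw [Polynomial.lifts_iff_coeff_lifts]
    intro n
    exact ⟨⟨_, (mem_Ot τ).2 (hQ n)⟩, rfl⟩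
  obtain ⟨Q', hQ'⟩ := (Polynomial.mem_lifts Q).1 hl
  have hcp : CharP (kk p) p := charP_kk p
  have hco : ∀ n, (Q'.map (rh τ)).coeff n = rd τ (Q.coeff n) := by
    intro n
    rw [Polynomial.coeff_map, ← hQ', Polynomial.coeff_map]
    exact (rd_coe τ _).symm
  refine ⟨Q'.map (rh τ), ?_, ?_⟩
  · intro y hy
    have h1 : Q.eval y = ((Q'.eval (⟨y, (mem_Ot τ).2 hy⟩ : Ot τ) : Ot τ) : ℂ) := by
      rw [← hQ', Polynomial.eval_map]
      exact Polynomial.eval₂_at_apply (Ot τ).subtype (⟨y, (mem_Ot τ).2 hy⟩ : Ot τ)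
    have h2 : (Q'.map (rh τ)).eval (rd τ y) = rh τ (Q'.eval (⟨y, (mem_Ot τ).2 hy⟩ : Ot τ)) := by
      have h3 : rd τ y = rh τ (⟨y, (mem_Ot τ).2 hy⟩ : Ot τ) := rd_coe τ (⟨y, (mem_Ot τ).2 hy⟩ : Ot τ)
      rw [h3, Polynomial.eval_map, Polynomial.eval₂_at_apply]
    rw [h1, h2, rd_coe]
    exact ⟨(mem_Ot τ).1 (Q'.eval _).2, rfl⟩
  · intro a k
    have h1 : (Q'.map (rh τ)).map (iterateFrobenius (kk p) p k) = Q'.map (rh τ) := by
      ext n
      rw [Polynomial.coeff_map, hco, iterateFrobenius_def]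
      induction k with
      | zero => rw [pow_zero, pow_one]
      | succ k ih => rw [pow_succ, pow_mul, ih, hfix]
    have h2 : iterateFrobenius (kk p) p k (Polynomial.eval a (Q'.map (rh τ))) =
        Polynomial.eval (iterateFrobenius (kk p) p k a) ((Q'.map (rh τ)).map (iterateFrobenius (kk p) p k)) := by
      generalize Q'.map (rh τ) = R
      rw [Polynomial.eval_map, Polynomial.eval₂_at_apply]
    rw [h1, iterateFrobenius_def, iterateFrobenius_def] at h2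
    exact h2

/-- elements algebraic over a field fixed by `s` have finite orbits -/
theorem per_algK (K : Subfield ℂ) (s : ℂ ≃+* ℂ) (hs : ∀ z ∈ K, s z = z) (z : ℂ) (hz : IsAlgebraic K z) :
    ∃ n, 1 ≤ n ∧ s^[n] z = z := by
  classical
  let sK : ℂ →ₐ[K] ℂ := { (s : ℂ →+* ℂ) with commutes' := fun r => hs _ r.2 }
  obtain ⟨P, hP0, hP⟩ := hz
  have hit : ∀ n, s^[n] z ∈ P.rootSet ℂ := by
    intro n
    induction n with
    | zero => exact (mem_rootSet_of_ne hP0).2 hP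
    | succ n ih =>
      rw [Function.iterate_succ_apply']
      rw [mem_rootSet_of_ne hP0] at ih ⊢
      have h1 : aeval (sK (s^[n] z)) P = sK (aeval (s^[n] z) P) := (Polynomial.aeval_algHom_apply sK (s^[n] z) P)
      change aeval (sK (s^[n] z)) P = 0
      rw [h1, ih, map_zero]
  have h1 : ¬ Function.Injective fun n => s^[n] z := by
    intro hi
    exact Set.infinite_range_of_injective hi ((P.rootSet_finite ℂ).subset (by
      rintro _ ⟨n, rfl⟩
      exact hit n))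
  rw [Function.Injective] at h1
  push Not at h1
  obtain ⟨a, b, hab, hne⟩ := h1
  wlog hlt : a < b generalizing a b
  · exact this b a hab.symm hne.symm (lt_of_le_of_ne (not_lt.1 hlt) hne.symm)
  refine ⟨b - a, by omega, ?_⟩
  have h2 : s^[a] (s^[b - a] z) = s^[a] z := by
    rw [← Function.iterate_add_apply, Nat.add_sub_cancel' hlt.le]
    exact hab.symm
  exact s.injective.iterate a h2

/-- a primitive element -/
theorem prim (F₀ : Subfield ℂ) (s : ℂ ≃+* ℂ) (hs : ∀ z ∈ F₀, s z = z) (Z : Finset ℂ) (hZ : ∀ z ∈ Z, IsAlgebraic F₀ z) :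
    ∃ θ : ℂ, IsAlgebraic F₀ θ ∧ (∀ z ∈ Z, ∃ Q : F₀[X], aeval θ Q = z) ∧ ∀ i : ℕ, ∃ Q : F₀[X], aeval θ Q = s^[i] θ := by
  classical
  let sF : ℂ →ₐ[F₀] ℂ := { (s : ℂ →+* ℂ) with commutes' := fun r => hs _ r.2 }
  choose n hn1 hn using fun z : Z => per_algK F₀ s hs z.1 (hZ z.1 z.2)
  let Y : Set ℂ := {y | ∃ z ∈ Z, ∃ i : ℕ, y = s^[i] z}
  have hYs : ∀ y ∈ Y, s y ∈ Y := by
    rintro _ ⟨z, hz, i, rfl⟩
    exact ⟨z, hz, i + 1, (Function.iterate_succ_apply' _ _ _).symm⟩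
  have hYa : ∀ y ∈ Y, IsAlgebraic F₀ y := by
    rintro _ ⟨z, hz, i, rfl⟩
    induction i with
    | zero => exact hZ z hz
    | succ i ih =>
      rw [Function.iterate_succ_apply']
      exact ih.algHom sF
  have hYf : Y.Finite := by
    refine ((Finset.univ : Finset Z).biUnion fun z => (Finset.range (n z)).image fun i => s^[i] z.1).finite_toSet.subset ?_
    rintro _ ⟨z, hz, i, rfl⟩
    rw [Finset.mem_coe, Finset.mem_biUnion]
    refine ⟨⟨z, hz⟩, Finset.mem_univ _, Finset.mem_image.2 ⟨i % n ⟨z, hz⟩, Finset.mem_range.2 (Nat.mod_lt _ (hn1 _)), ?_⟩⟩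
    exact (Function.IsPeriodicPt.iterate_mod_apply (f := s) (hn ⟨z, hz⟩) i)
  let L : IntermediateField F₀ ℂ := IntermediateField.adjoin F₀ Y
  have hfd : FiniteDimensional F₀ L := by
    have : Finite Y := hYf
    exact IntermediateField.finiteDimensional_adjoin fun x hx => (hYa x hx).isIntegral
  have hLs : ∀ x ∈ L, s x ∈ L := by
    have h1 : L ≤ L.comap sF := by
      refine IntermediateField.adjoin_le_iff.2 fun y hy => ?_
      exact IntermediateField.subset_adjoin F₀ Y (hYs y hy)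
    exact fun x hx => h1 hx
  obtain ⟨α, hα⟩ := Field.exists_primitive_element F₀ L
  have hαi : IsIntegral F₀ α := IsIntegral.of_finite F₀ α
  have hrep : ∀ x ∈ L, ∃ Q : F₀[X], aeval (α : ℂ) Q = x := by
    intro x hx
    have h1 : (⟨x, hx⟩ : L) ∈ (IntermediateField.adjoin F₀ {α}).toSubalgebra := by
      rw [hα]
      exact Algebra.mem_top
    rw [IntermediateField.adjoin_simple_toSubalgebra_of_isAlgebraic hαi.isAlgebraic, Algebra.adjoin_singleton_eq_range_aeval] at h1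
    obtain ⟨Q, hQ⟩ := h1
    refine ⟨Q, ?_⟩
    have h2 : aeval (α : ℂ) Q = ((aeval α Q : L) : ℂ) := Polynomial.aeval_algebraMap_apply ℂ α Q
    rw [h2]
    exact congrArg Subtype.val hQ
  refine ⟨α, ?_, fun z hz => hrep z (IntermediateField.subset_adjoin F₀ Y ⟨z, hz, 0, rfl⟩), fun i => hrep _ ?_⟩
  · exact (isAlgebraic_algebraMap_iff (S := L) (A := ℂ) Subtype.val_injective).2 hαi.isAlgebraic
  · induction i with
    | zero => exact α.2
    | succ i ih =>
      rw [Function.iterate_succ_apply']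
      exact hLs _ ih

theorem aeval_iter (F₀ : Subfield ℂ) (s : ℂ ≃+* ℂ) (hs : ∀ z ∈ F₀, s z = z) (Q : F₀[X]) (x : ℂ) (j : ℕ) :
    aeval (s^[j] x) Q = s^[j] (aeval x Q) := by
  let sF : ℂ →ₐ[F₀] ℂ := { (s : ℂ →+* ℂ) with commutes' := fun r => hs _ r.2 }
  induction j with
  | zero => rfl
  | succ j ih =>
    rw [Function.iterate_succ_apply', Function.iterate_succ_apply', ← ih]
    exact Polynomial.aeval_algHom_apply sF (s^[j] x) Q

/-- the product over the orbit has fixed coefficients -/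
theorem orbit_poly (s : ℂ ≃+* ℂ) (θ : ℂ) (N : ℕ) (hN : s^[N] θ = θ) (n : ℕ) :
    s ((∏ i ∈ Finset.range N, (X - C (s^[i] θ))).coeff n) = (∏ i ∈ Finset.range N, (X - C (s^[i] θ))).coeff n := by
  have h1 : (∏ i ∈ Finset.range N, (X - C (s^[i] θ))).map (s : ℂ →+* ℂ) = ∏ i ∈ Finset.range N, (X - C (s^[i] θ)) := by
    rw [Polynomial.map_prod]
    have h2 : ∀ i ∈ Finset.range N, (X - C (s^[i] θ)).map (s : ℂ →+* ℂ) = X - C (s^[i + 1] θ) := by
      intro i _
      rw [Polynomial.map_sub, Polynomial.map_X, Polynomial.map_C, Function.iterate_succ_apply']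
      rfl
    rw [Finset.prod_congr rfl h2]
    have h3 := Finset.prod_range_succ (fun i => (X - C (s^[i] θ) : ℂ[X])) N
    rw [Finset.prod_range_succ' (fun i => (X - C (s^[i] θ) : ℂ[X])) N, hN] at h3
    exact mul_right_cancel₀ (Polynomial.X_sub_C_ne_zero θ) h3
  conv_rhs => rw [← h1]
  rw [Polynomial.coeff_map]
  rfl

/-- **frobS**: the residues of the powers of an automorphism are powers of the Frobenius -/
theorem frobS
    (exS : ∀ (s : ℂ ≃+* ℂ) (W : Finset ℂ), (∀ z ∈ W, ∃ m : ℕ, 1 ≤ m ∧ s^[m] z = z) → ∀ N₀ : ℕ,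
      ∃ (p : ℕ) (_ : Fact p.Prime) (τ : ℂ →+* PadicAlgCl p), N₀ < p ∧ Un τ W ∧
        ∀ z ∈ W, ∀ m : ℕ, ‖(τ z) ^ p ^ m - τ z‖ < 1 ↔ s^[m] z = z)
    (K : Subfield ℂ) (s : ℂ ≃+* ℂ) (hs : ∀ z ∈ K, s z = z) (Z : Finset ℂ) (hZ : ∀ z ∈ Z, IsAlgebraic K z) (N₀ : ℕ) :
    ∃ (p : ℕ) (_ : Fact p.Prime) (τ : ℂ →+* PadicAlgCl p), N₀ < p ∧ Un τ Z ∧
      (∀ z ∈ Z, ∀ m : ℕ, ‖(τ z) ^ p ^ m - τ z‖ < 1 ↔ s^[m] z = z) ∧ FrobPlus (s : ℂ →+* ℂ) τ Z := by
  classical
  let F₀ : Subfield ℂ := RingHom.eqLocusField (s : ℂ →+* ℂ) (RingHom.id ℂ)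
  have hF₀ : ∀ z ∈ F₀, s z = z := fun z hz => hz
  have hKF : K ≤ F₀ := fun z hz => hs z hz
  have hZF : ∀ z ∈ Z, IsAlgebraic F₀ z := by
    intro z hz
    obtain ⟨P, hP0, hP⟩ := hZ z hz
    refine ⟨P.map (Subfield.inclusion hKF), (Polynomial.map_ne_zero_iff (Subfield.inclusion hKF).injective).2 hP0, ?_⟩
    rw [aeval_def, eval₂_map]
    exact hP
  obtain ⟨θ, hθa, hQ, hR⟩ := prim F₀ s hF₀ Z hZF
  obtain ⟨n₀, hn₀1, hn₀⟩ := per_algK F₀ s hF₀ θ hθa
  obtain ⟨N, hNdef⟩ : ∃ N, N = Function.minimalPeriod s θ := ⟨_, rfl⟩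
  have hNpos : 0 < N := by
    rw [hNdef]
    exact Function.IsPeriodicPt.minimalPeriod_pos hn₀1 hn₀
  have hN : s^[N] θ = θ := by
    rw [hNdef]
    exact Function.iterate_minimalPeriod
  have hmod : ∀ i, s^[i % N] θ = s^[i] θ := fun i => Function.IsPeriodicPt.iterate_mod_apply (f := s) hN i
  choose! Q hQ using hQ
  choose R hR using hR
  obtain ⟨P, hPdef⟩ : ∃ P : ℂ[X], P = ∏ i ∈ Finset.range N, (X - C (s^[i] θ)) := ⟨_, rfl⟩
  have hPs : ∀ n, s (P.coeff n) = P.coeff n := by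
    rw [hPdef]
    exact orbit_poly s θ N hN
  let W : Finset ℂ := Z ∪ ((Finset.range N).image (fun i => s^[i] θ) ∪
    (Z.biUnion (fun z => (Q z).support.image fun n => ((Q z).coeff n : ℂ)) ∪
    ((Finset.range N).biUnion (fun i => (R i).support.image fun n => ((R i).coeff n : ℂ)) ∪
    P.support.image fun n => P.coeff n)))
  have m1 : ∀ z ∈ Z, z ∈ W := fun z hz => Finset.mem_union_left _ hz
  have m2 : ∀ i, s^[i] θ ∈ W := fun i => Finset.mem_union_right _ (Finset.mem_union_left _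
    (Finset.mem_image.2 ⟨i % N, Finset.mem_range.2 (Nat.mod_lt _ hNpos), hmod i⟩))
  have m3 : ∀ z ∈ Z, ∀ n, ((Q z).coeff n : ℂ) = 0 ∨ ((Q z).coeff n : ℂ) ∈ W := by
    intro z hz n
    by_cases h : (Q z).coeff n = 0
    · left
      rw [h]
      rfl
    · exact Or.inr (Finset.mem_union_right _ (Finset.mem_union_right _ (Finset.mem_union_left _ (Finset.mem_biUnion.2
        ⟨z, hz, Finset.mem_image.2 ⟨n, mem_support_iff.2 h, rfl⟩⟩))))
  have m4 : ∀ i < N, ∀ n, ((R i).coeff n : ℂ) = 0 ∨ ((R i).coeff n : ℂ) ∈ W := by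
    intro i hi n
    by_cases h : (R i).coeff n = 0
    · left
      rw [h]
      rfl
    · exact Or.inr (Finset.mem_union_right _ (Finset.mem_union_right _ (Finset.mem_union_right _ (Finset.mem_union_left _
        (Finset.mem_biUnion.2 ⟨i, Finset.mem_range.2 hi, Finset.mem_image.2 ⟨n, mem_support_iff.2 h, rfl⟩⟩)))))
  have m5 : ∀ n, P.coeff n = 0 ∨ P.coeff n ∈ W := by
    intro n
    by_cases h : P.coeff n = 0
    · exact Or.inl h
    · exact Or.inr (Finset.mem_union_right _ (Finset.mem_union_right _ (Finset.mem_union_right _ (Finset.mem_union_right _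
        (Finset.mem_image.2 ⟨n, mem_support_iff.2 h, rfl⟩)))))
  have hW : ∀ z ∈ W, ∃ m : ℕ, 1 ≤ m ∧ s^[m] z = z := by
    intro z hz
    rcases Finset.mem_union.1 hz with hz | hz
    · exact per_algK F₀ s hF₀ z (hZF z hz)
    rcases Finset.mem_union.1 hz with hz | hz
    · obtain ⟨i, -, rfl⟩ := Finset.mem_image.1 hz
      refine ⟨N, hNpos, ?_⟩
      rw [← Function.iterate_add_apply, add_comm, Function.iterate_add_apply, hN]
    rcases Finset.mem_union.1 hz with hz | hz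
    · obtain ⟨w, -, hz⟩ := Finset.mem_biUnion.1 hz
      obtain ⟨n, -, rfl⟩ := Finset.mem_image.1 hz
      exact ⟨1, le_rfl, hF₀ _ ((Q w).coeff n).2⟩
    rcases Finset.mem_union.1 hz with hz | hz
    · obtain ⟨w, -, hz⟩ := Finset.mem_biUnion.1 hz
      obtain ⟨n, -, rfl⟩ := Finset.mem_image.1 hz
      exact ⟨1, le_rfl, hF₀ _ ((R w).coeff n).2⟩
    · obtain ⟨n, -, rfl⟩ := Finset.mem_image.1 hz
      exact ⟨1, le_rfl, hPs n⟩
  obtain ⟨p, hp, τ, hpN, hUn, hiff⟩ := exS s W hW N₀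
  have hfixW : ∀ c, (c = 0 ∨ c ∈ W) → s c = c → ‖τ c‖ ≤ 1 ∧ rd τ c ^ p = rd τ c := by
    rintro c (rfl | hc) hsc
    · refine ⟨?_, ?_⟩
      · rw [map_zero, norm_zero]
        exact zero_le_one
      · rw [Pool.Agent.Helper26.OB.rd_zero, zero_pow hp.out.ne_zero]
    · refine ⟨(hUn c hc).1, ?_⟩
      refine Pool.Agent.Helper11.TR.rd_pow_eqR τ (hUn c hc).1 (hUn c hc).1 ?_
      have h1 := (hiff c hc 1).2 hsc
      rwa [pow_one] at h1
  have hθi : ∀ i, ‖τ (s^[i] θ)‖ ≤ 1 := fun i => (hUn _ (m2 i)).1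
  -- the residue of `θ`
  obtain ⟨j, hjN, hj⟩ : ∃ j < N, rd τ θ ^ p = rd τ (s^[j] θ) := by
    obtain ⟨Pb, hPb1, hPb2⟩ := red_poly τ P (fun n => (hfixW _ (m5 n) (hPs n)).1) (fun n => (hfixW _ (m5 n) (hPs n)).2)
    have h1 : P.eval θ = 0 := by
      rw [hPdef, eval_prod]
      refine Finset.prod_eq_zero (Finset.mem_range.2 hNpos) ?_
      rw [eval_sub, eval_X, eval_C]
      exact sub_self _
    have hθ0 : ‖τ θ‖ ≤ 1 := hθi 0
    have hθp : ‖τ (θ ^ p)‖ ≤ 1 := by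
      rw [map_pow, norm_pow]
      exact pow_le_one₀ (norm_nonneg _) hθ0
    have h2 : rd τ (P.eval (θ ^ p)) = 0 := by
      rw [(hPb1 _ hθp).2, Pool.Agent.Helper11.TR.rd_powR τ hθ0]
      have h3 := hPb2 (rd τ θ) 1
      rw [pow_one] at h3
      rw [← h3, ← (hPb1 _ hθ0).2, h1, Pool.Agent.Helper26.OB.rd_zero, zero_pow hp.out.ne_zero]
    have h3 := (rd_eq_zero τ (hPb1 _ hθp).1).1 h2
    rw [hPdef, eval_prod, map_prod, norm_prod] at h3
    obtain ⟨j, hjN, hj⟩ : ∃ j ∈ Finset.range N, ‖τ (eval (θ ^ p) (X - C (s^[j] θ)))‖ < 1 := by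
      by_contra hcon
      push Not at hcon
      have h4 : (1 : ℝ) ≤ ∏ i ∈ Finset.range N, ‖τ (eval (θ ^ p) (X - C (s^[i] θ)))‖ :=
        Finset.prod_induction _ (fun a : ℝ => 1 ≤ a) (fun a b ha hb => one_le_mul_of_one_le_of_one_le ha hb) le_rfl hcon
      linarith
    refine ⟨j, Finset.mem_range.1 hjN, Pool.Agent.Helper11.TR.rd_pow_eqR τ hθ0 (hθi j) ?_⟩
    rwa [eval_sub, eval_X, eval_C, map_sub, map_pow] at hj
  have hRr : ∀ i < N, rd τ (s^[i] θ) ^ p = rd τ (s^[j] (s^[i] θ)) := by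
    intro i hi
    obtain ⟨Rb, hRb1, hRb2⟩ := red_poly τ ((R i).map (algebraMap F₀ ℂ)) (fun n => by
      rw [Polynomial.coeff_map]
      exact (hfixW _ (m4 i hi n) (hF₀ _ ((R i).coeff n).2)).1) (fun n => by
      rw [Polynomial.coeff_map]
      exact (hfixW _ (m4 i hi n) (hF₀ _ ((R i).coeff n).2)).2)
    have h1 := (hRb1 θ (hθi 0)).2
    have h2 := (hRb1 _ (hθi j)).2
    rw [Polynomial.eval_map_algebraMap, hR] at h1
    rw [Polynomial.eval_map_algebraMap, aeval_iter F₀ s hF₀, hR] at h2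
    have h3 := hRb2 (rd τ θ) 1
    rw [pow_one] at h3
    rw [h2, h1, h3, hj]
  have hstep : ∀ i, rd τ (s^[i] θ) ^ p = rd τ (s^[j] (s^[i] θ)) := by
    intro i
    rw [← hmod i]
    exact hRr _ (Nat.mod_lt _ hNpos)
  have hpow : ∀ k, rd τ θ ^ p ^ k = rd τ (s^[j * k] θ) := by
    intro k
    induction k with
    | zero =>
      rw [pow_zero, pow_one, mul_zero]
      rfl
    | succ k ih =>
      rw [pow_succ, pow_mul, ih, hstep, ← Function.iterate_add_apply, mul_add, mul_one, add_comm j]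
  have hcop : j.Coprime N := by
    have hg0 : 0 < j.gcd N := Nat.gcd_pos_of_pos_right j hNpos
    obtain ⟨m, hm⟩ := Nat.gcd_dvd_right j N
    obtain ⟨j', hj'⟩ := Nat.gcd_dvd_left j N
    have h1 : rd τ θ ^ p ^ m = rd τ θ := by
      rw [hpow, ← hmod]
      have h2 : j * m % N = 0 := by
        apply Nat.mod_eq_zero_of_dvd
        refine ⟨j', ?_⟩
        conv_lhs => rw [hj']
        conv_rhs => rw [hm]
        ring
      rw [h2]
      rfl
    have h2 : s^[m] θ = θ := (hiff θ (m2 0) m).1 ((rd_pow_iff τ θ (hθi 0) m).1 h1)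
    have h3 : N ∣ m := by
      rw [hNdef]
      exact Function.IsPeriodicPt.minimalPeriod_dvd h2
    have hm0 : 0 < m := by
      rcases Nat.eq_zero_or_pos m with h | h
      · rw [h, mul_zero] at hm
        omega
      · exact h
    have h4 := Nat.le_of_dvd hm0 h3
    have h5 : j.gcd N ≤ 1 := by
      by_contra hcon
      push Not at hcon
      have : 2 * m ≤ j.gcd N * m := Nat.mul_le_mul_right m hcon
      omega
    exact le_antisymm h5 hg0
  have hsol : ∀ l, ∃ k, s^[j * k] θ = s^[l] θ := by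
    intro l
    rcases Nat.lt_or_ge 1 N with h1 | h1
    · obtain ⟨m, hm⟩ := Nat.exists_mul_mod_eq_one_of_coprime hcop h1
      refine ⟨m * l, ?_⟩
      have h5 : j * (m * l) % N = l % N := by
        rw [← mul_assoc, Nat.mul_mod, hm.2, one_mul, Nat.mod_mod]
      rw [← hmod, ← hmod l, h5]
    · have h2 : N = 1 := le_antisymm h1 hNpos
      refine ⟨0, ?_⟩
      rw [← hmod, ← hmod l, h2, Nat.mod_one, Nat.mod_one]
  refine ⟨p, hp, τ, hpN, fun z hz => hUn z (m1 z hz), fun z hz => hiff z (m1 z hz), ?_⟩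
  intro l
  obtain ⟨k, hk⟩ := hsol l
  refine ⟨k, fun z hz => ?_⟩
  obtain ⟨Qb, hQb1, hQb2⟩ := red_poly τ ((Q z).map (algebraMap F₀ ℂ)) (fun n => by
      rw [Polynomial.coeff_map]
      exact (hfixW _ (m3 z hz n) (hF₀ _ ((Q z).coeff n).2)).1) (fun n => by
      rw [Polynomial.coeff_map]
      exact (hfixW _ (m3 z hz n) (hF₀ _ ((Q z).coeff n).2)).2)
  have h1 := (hQb1 θ (hθi 0)).2
  obtain ⟨h0, h2⟩ := hQb1 _ (hθi l)
  rw [Polynomial.eval_map_algebraMap, hQ z hz] at h1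
  rw [Polynomial.eval_map_algebraMap, aeval_iter F₀ s hF₀, hQ z hz] at h0 h2
  have h3 := hQb2 (rd τ θ) k
  have hz1 : ‖τ z‖ ≤ 1 := (hUn z (m1 z hz)).1
  have h4 : rd τ z ^ p ^ k = rd τ (s^[l] z) := by
    rw [h2, h1, h3, hpow, hk]
  rw [RingHom.coe_pow]
  refine ⟨h0, ?_⟩
  have hzp : ‖τ (z ^ p ^ k)‖ ≤ 1 := by
    rw [map_pow, norm_pow]
    exact pow_le_one₀ (norm_nonneg _) hz1
  have h5 : ‖τ (z ^ p ^ k - s^[l] z)‖ ≤ 1 := by
    rw [map_sub, sub_eq_add_neg]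
    refine (PadicAlgCl.isNonarchimedean p _ _).trans (max_le hzp ?_)
    rw [norm_neg]
    exact h0
  have h6 := (rd_eq_zero τ h5).1 (by
    rw [Pool.Agent.Helper11.OB.rd_sub τ hzp h0, Pool.Agent.Helper11.TR.rd_powR τ hz1, h4, sub_self])
  rw [map_sub, map_pow] at h6
  exact h6

end

end Pool.Agent.Helper10.V4
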